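import Pool.Agent.Z700.Defs2

/-!
# Project Z700: divisibility of the number of points by 8 and the roots (RTE), the prime 193 (EX)
-/

set_option autoImplicit false

namespace Pool.Agent.Y655.Z7

open Finset
open Pool.Agent.Z700
open Pool.Agent.Y700 (Rt)

section

variable {p : ℕ} [Fact p.Prime]

/-- the solutions of `v² = w⁴ - 26 w² - 343` -/
def QQ (p : ℕ) [NeZero p] : Finset (ZMod p × ZMod p) :=
  univ.filter fun q => q.1 ^ 2 = q.2 ^ 4 - 26 * q.2 ^ 2 - 343

/-- the roots of `w⁴ - 26 w² - 343` -/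
def ZZ (p : ℕ) [NeZero p] : Finset (ZMod p) :=
  univ.filter fun w => w ^ 4 - 26 * w ^ 2 - 343 = 0

open Classical in
/-- the nonzero squares `Y` with `Y² - 26 Y - 343` a nonzero square -/
noncomputable def SG (p : ℕ) [NeZero p] : Finset (ZMod p) :=
  univ.filter fun Y => (∃ w, w ≠ 0 ∧ Y = w ^ 2) ∧ ∃ v, v ≠ 0 ∧ v ^ 2 = Y ^ 2 - 26 * Y - 343

theorem ne_sq {a b : ZMod p} (h2 : (2 : ZMod p) ≠ 0) (hb : b ≠ 0) (h : a = b) : a ≠ -b := by
  intro h'
  apply hb
  have h1 : (2 : ZMod p) * b = 0 := by linear_combination h' - h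
  exact (mul_eq_zero.1 h1).resolve_left h2

theorem self_ne_neg {b : ZMod p} (h2 : (2 : ZMod p) ≠ 0) (hb : b ≠ 0) : b ≠ -b :=
  ne_sq h2 hb rfl

/-- the count of the cubic model by the quartic -/
theorem card_model (n2 : (2 : ZMod p) ≠ 0) (n3 : (3 : ZMod p) ≠ 0) :
    NE p = 2 + (QQ p).card := by
  have n9 : (9 : ZMod p) ≠ 0 := by
    rw [show (9 : ZMod p) = 3 * 3 by norm_num]; exact mul_ne_zero n3 n3
  have n27 : (27 : ZMod p) ≠ 0 := by
    rw [show (27 : ZMod p) = 9 * 3 by norm_num]; exact mul_ne_zero n9 n3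
  have n729 : (729 : ZMod p) ≠ 0 := by
    rw [show (729 : ZMod p) = 27 * 27 by norm_num]; exact mul_ne_zero n27 n27
  have n128 : (128 : ZMod p) ≠ 0 := by
    rw [show (128 : ZMod p) = 2 ^ 7 by norm_num]; exact pow_ne_zero _ n2
  -- the model
  have h1 : Nat.card {q : ZMod p × ZMod p // q.2 ^ 2 = q.1 ^ 3 + 5805 * q.1 - 285714} =
      (univ.filter fun q : ZMod p × ZMod p => q.2 ^ 2 = q.1 ^ 3 + 13 * q.1 ^ 2 + 128 * q.1).card := by
    rw [Nat.card_eq_fintype_card, Fintype.card_subtype]
    refine Finset.card_bij' (fun q _ => ((q.1 - 39) / 9, q.2 / 27))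
      (fun q _ => (9 * q.1 + 39, 27 * q.2)) ?_ ?_ ?_ ?_
    · intro q hq
      rw [mem_filter] at hq ⊢
      refine ⟨mem_univ _, ?_⟩
      have h := hq.2
      obtain ⟨u, hu⟩ : ∃ u, u = (q.1 - 39) / 9 := ⟨_, rfl⟩
      obtain ⟨v, hv⟩ : ∃ v, v = q.2 / 27 := ⟨_, rfl⟩
      have e1 : q.1 = 9 * u + 39 := by rw [hu]; field_simp; ring
      have e2 : q.2 = 27 * v := by rw [hv]; field_simp
      rw [e1, e2] at h
      show (q.2 / 27) ^ 2 = ((q.1 - 39) / 9) ^ 3 + 13 * ((q.1 - 39) / 9) ^ 2 +
        128 * ((q.1 - 39) / 9)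
      rw [← hu, ← hv]
      apply mul_left_cancel₀ n729
      linear_combination h
    · intro q hq
      rw [mem_filter] at hq ⊢
      refine ⟨mem_univ _, ?_⟩
      show (27 * q.2) ^ 2 = (9 * q.1 + 39) ^ 3 + 5805 * (9 * q.1 + 39) - 285714
      linear_combination 729 * hq.2
    · intro q _
      ext
      · show 9 * ((q.1 - 39) / 9) + 39 = q.1
        field_simp
        ring
      · show 27 * (q.2 / 27) = q.2
        field_simp
    · intro q _
      ext
      · show (9 * q.1 + 39 - 39) / 9 = q.1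
        field_simp
        ring
      · show 27 * q.2 / 27 = q.2
        field_simp
  -- the point `(0, 0)`
  have h2 : (univ.filter fun q : ZMod p × ZMod p =>
        q.2 ^ 2 = q.1 ^ 3 + 13 * q.1 ^ 2 + 128 * q.1) =
      insert (0, 0) (univ.filter fun q : ZMod p × ZMod p =>
        q.1 ≠ 0 ∧ q.2 ^ 2 = q.1 ^ 3 + 13 * q.1 ^ 2 + 128 * q.1) := by
    ext ⟨x, y⟩
    rw [mem_insert, mem_filter, mem_filter]
    simp only [mem_univ, true_and, Prod.mk.injEq]
    constructor
    · intro h
      by_cases hx : x = 0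
      · left
        refine ⟨hx, ?_⟩
        rw [hx] at h
        have : y ^ 2 = 0 := by linear_combination h
        exact pow_eq_zero_iff (by norm_num) |>.1 this
      · exact Or.inr ⟨hx, h⟩
    · rintro (⟨rfl, rfl⟩ | ⟨-, h⟩)
      · ring
      · exact h
  have h3 : (univ.filter fun q : ZMod p × ZMod p =>
        q.1 ≠ 0 ∧ q.2 ^ 2 = q.1 ^ 3 + 13 * q.1 ^ 2 + 128 * q.1).card = (QQ p).card := by
    have hx0 : ∀ q : ZMod p × ZMod p, q ∈ QQ p → (q.1 + q.2 ^ 2 - 13) / 2 ≠ 0 := by
      intro q hq h0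
      unfold QQ at hq
      rw [mem_filter] at hq
      have h4 : q.1 = 13 - q.2 ^ 2 := by
        field_simp at h0
        linear_combination h0
      have h5 := hq.2
      rw [h4] at h5
      have h6 : (2 : ZMod p) ^ 9 = 0 := by linear_combination h5
      exact pow_ne_zero _ n2 h6
    refine Finset.card_bij' (fun q _ => (2 * q.1 - (q.2 / q.1) ^ 2 + 13, q.2 / q.1))
      (fun q _ => ((q.1 + q.2 ^ 2 - 13) / 2, q.2 * ((q.1 + q.2 ^ 2 - 13) / 2))) ?_ ?_ ?_ ?_
    · intro q hq
      rw [mem_filter] at hq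
      obtain ⟨-, hx, h⟩ := hq
      unfold QQ
      rw [mem_filter]
      refine ⟨mem_univ _, ?_⟩
      obtain ⟨w, hw⟩ : ∃ w, w = q.2 / q.1 := ⟨_, rfl⟩
      have e2 : q.2 = w * q.1 := by rw [hw]; field_simp
      show (2 * q.1 - (q.2 / q.1) ^ 2 + 13) ^ 2 = (q.2 / q.1) ^ 4 - 26 * (q.2 / q.1) ^ 2 - 343
      rw [← hw]
      rw [e2] at h
      have h4 : q.1 * (w ^ 2 * q.1 - (q.1 ^ 2 + 13 * q.1 + 128)) = 0 := by linear_combination h
      have h5 := (mul_eq_zero.1 h4).resolve_left hx
      linear_combination -4 * h5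
    · intro q hq
      have hne := hx0 q hq
      unfold QQ at hq
      rw [mem_filter] at hq ⊢
      refine ⟨mem_univ _, hne, ?_⟩
      obtain ⟨x, hx⟩ : ∃ x, x = (q.1 + q.2 ^ 2 - 13) / 2 := ⟨_, rfl⟩
      have e1 : q.1 = 2 * x - q.2 ^ 2 + 13 := by rw [hx]; field_simp; ring
      show (q.2 * ((q.1 + q.2 ^ 2 - 13) / 2)) ^ 2 = ((q.1 + q.2 ^ 2 - 13) / 2) ^ 3 +
        13 * ((q.1 + q.2 ^ 2 - 13) / 2) ^ 2 + 128 * ((q.1 + q.2 ^ 2 - 13) / 2)
      rw [← hx]
      have h := hq.2
      rw [e1] at h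
      have n4 : (4 : ZMod p) ≠ 0 := by
        rw [show (4 : ZMod p) = 2 * 2 by norm_num]; exact mul_ne_zero n2 n2
      apply mul_left_cancel₀ n4
      linear_combination -x * h
    · intro q hq
      rw [mem_filter] at hq
      obtain ⟨-, hx, h⟩ := hq
      ext
      · show (2 * q.1 - (q.2 / q.1) ^ 2 + 13 + (q.2 / q.1) ^ 2 - 13) / 2 = q.1
        field_simp
        ring
      · show q.2 / q.1 * ((2 * q.1 - (q.2 / q.1) ^ 2 + 13 + (q.2 / q.1) ^ 2 - 13) / 2) = q.2
        have : (2 * q.1 - (q.2 / q.1) ^ 2 + 13 + (q.2 / q.1) ^ 2 - 13) / 2 = q.1 := by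
          field_simp
          ring
        rw [this]
        field_simp
    · intro q hq
      have hne := hx0 q hq
      have e : q.2 * ((q.1 + q.2 ^ 2 - 13) / 2) / ((q.1 + q.2 ^ 2 - 13) / 2) = q.2 :=
        mul_div_cancel_right₀ _ hne
      ext
      · show 2 * ((q.1 + q.2 ^ 2 - 13) / 2) -
          (q.2 * ((q.1 + q.2 ^ 2 - 13) / 2) / ((q.1 + q.2 ^ 2 - 13) / 2)) ^ 2 + 13 = q.1
        rw [e, mul_div_cancel₀ _ n2]
        ring
      · exact e
  unfold NE
  rw [h1, h2, card_insert_of_notMem (by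
    rw [mem_filter]
    rintro ⟨-, h, -⟩
    exact h rfl), h3]
  ring

/-- the count of the quartic -/
theorem card_QQ (n2 : (2 : ZMod p) ≠ 0) (n343 : (343 : ZMod p) ≠ 0) {δ : ZMod p}
    (hδ : δ ^ 2 = -343) : (QQ p).card = 2 + (ZZ p).card + 4 * (SG p).card := by
  classical
  have hδ0 : δ ≠ 0 := by
    rintro rfl
    apply n343
    linear_combination hδ
  have hdec : QQ p = ({(δ, 0), (-δ, 0)} : Finset (ZMod p × ZMod p)) ∪
      ((ZZ p).image fun w => ((0 : ZMod p), w)) ∪
      ((QQ p).filter fun q => q.1 ≠ 0 ∧ q.2 ≠ 0) := by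
    ext ⟨v, w⟩
    simp only [mem_union, mem_insert, mem_singleton, mem_image, mem_filter, Prod.mk.injEq, QQ, ZZ,
      mem_univ, true_and]
    constructor
    · intro h
      by_cases hw : w = 0
      · left; left
        subst hw
        have h1 : (v - δ) * (v + δ) = 0 := by linear_combination h - hδ
        rcases mul_eq_zero.1 h1 with h1 | h1
        · left; exact ⟨by linear_combination h1, rfl⟩
        · right; exact ⟨by linear_combination h1, rfl⟩
      · by_cases hv : v = 0
        · left; right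
          subst hv
          exact ⟨w, by linear_combination -h, rfl, rfl⟩
        · right
          exact ⟨h, hv, hw⟩
    · rintro (((⟨rfl, rfl⟩ | ⟨rfl, rfl⟩) | ⟨w', hw', rfl, rfl⟩) | ⟨h, -⟩)
      · linear_combination hδ
      · linear_combination hδ
      · linear_combination -hw'
      · exact h
  have hd1 : Disjoint ({(δ, 0), (-δ, 0)} : Finset (ZMod p × ZMod p))
      ((ZZ p).image fun w => ((0 : ZMod p), w)) := by
    rw [Finset.disjoint_left]
    rintro ⟨v, w⟩ h1 h2
    simp only [mem_insert, mem_singleton, Prod.mk.injEq, mem_image] at h1 h2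
    obtain ⟨w', hw', rfl, rfl⟩ := h2
    rcases h1 with ⟨h1, -⟩ | ⟨h1, -⟩
    · exact hδ0 h1.symm
    · exact hδ0 (neg_eq_zero.1 h1.symm)
  have hd2 : Disjoint (({(δ, 0), (-δ, 0)} : Finset (ZMod p × ZMod p)) ∪
      ((ZZ p).image fun w => ((0 : ZMod p), w))) ((QQ p).filter fun q => q.1 ≠ 0 ∧ q.2 ≠ 0) := by
    rw [Finset.disjoint_left]
    rintro ⟨v, w⟩ h1 h2
    simp only [mem_union, mem_insert, mem_singleton, Prod.mk.injEq, mem_image, mem_filter] at h1 h2
    obtain ⟨-, hv, hw⟩ := h2
    rcases h1 with (⟨-, h1⟩ | ⟨-, h1⟩) | ⟨w', -, h1, -⟩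
    · exact hw h1
    · exact hw h1
    · exact hv h1.symm
  have hc1 : ({(δ, 0), (-δ, 0)} : Finset (ZMod p × ZMod p)).card = 2 := by
    apply card_pair
    intro h
    exact self_ne_neg n2 hδ0 (congrArg Prod.fst h)
  have hc2 : ((ZZ p).image fun w => ((0 : ZMod p), w)).card = (ZZ p).card :=
    card_image_of_injective _ fun a b h => congrArg Prod.snd h
  have hc3 : ((QQ p).filter fun q => q.1 ≠ 0 ∧ q.2 ≠ 0).card = 4 * (SG p).card := by
    rw [card_eq_sum_card_fiberwise (f := fun q : ZMod p × ZMod p => q.2 ^ 2) (t := SG p)]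
    · rw [sum_const_nat (m := 4), mul_comm]
      intro Y hY
      unfold SG at hY
      rw [mem_filter] at hY
      obtain ⟨-, ⟨w0, hw0, rfl⟩, v0, hv0, hv⟩ := hY
      have heq : (((QQ p).filter fun q => q.1 ≠ 0 ∧ q.2 ≠ 0).filter fun q => q.2 ^ 2 = w0 ^ 2) =
          ({v0, -v0} : Finset (ZMod p)) ×ˢ ({w0, -w0} : Finset (ZMod p)) := by
        ext ⟨v, w⟩
        simp only [QQ, mem_filter, mem_univ, true_and, mem_product, mem_insert, mem_singleton]
        constructor
        · rintro ⟨⟨h1, -, -⟩, h2⟩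
          have h3 : (w - w0) * (w + w0) = 0 := by linear_combination h2
          have h4 : (v - v0) * (v + v0) = 0 := by
            linear_combination h1 - hv + (w ^ 2 + w0 ^ 2 - 26) * h2
          constructor
          · rcases mul_eq_zero.1 h4 with h | h
            · left; linear_combination h
            · right; linear_combination h
          · rcases mul_eq_zero.1 h3 with h | h
            · left; linear_combination h
            · right; linear_combination h
        · rintro ⟨h1, h2⟩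
          have h3 : v ^ 2 = v0 ^ 2 := by rcases h1 with rfl | rfl <;> ring
          have h4 : w ^ 2 = w0 ^ 2 := by rcases h2 with rfl | rfl <;> ring
          refine ⟨⟨?_, ?_, ?_⟩, h4⟩
          · linear_combination h3 + hv - (w ^ 2 + w0 ^ 2 - 26) * h4
          · rintro rfl
            apply hv0
            have : v0 ^ 2 = 0 := by linear_combination -h3
            exact pow_eq_zero_iff (by norm_num) |>.1 this
          · rintro rfl
            apply hw0
            have : w0 ^ 2 = 0 := by linear_combination -h4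
            exact pow_eq_zero_iff (by norm_num) |>.1 this
      rw [heq, card_product, card_pair (self_ne_neg n2 hv0), card_pair (self_ne_neg n2 hw0)]
    · intro q hq
      rw [mem_coe, mem_filter] at hq
      obtain ⟨h1, h2, h3⟩ := hq
      unfold QQ at h1
      rw [mem_filter] at h1
      rw [mem_coe]
      unfold SG
      rw [mem_filter]
      exact ⟨mem_univ _, ⟨q.2, h3, rfl⟩, q.1, h2, by linear_combination h1.2⟩
  rw [hdec, card_union_of_disjoint hd2, card_union_of_disjoint hd1, hc1, hc2, ← hc3]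

/-- the number of elements of `SG` is even -/
theorem even_SG (n2 : (2 : ZMod p) ≠ 0) (n343 : (343 : ZMod p) ≠ 0) {i r δ : ZMod p}
    (hi : i ^ 2 = -1) (hr : r ^ 2 = 2) (hδ : δ ^ 2 = -343) : Even (SG p).card := by
  classical
  have hδ0 : δ ≠ 0 := by
    rintro rfl
    apply n343
    linear_combination hδ
  have hr0 : r ≠ 0 := by
    rintro rfl
    apply n2
    linear_combination -hr
  have hmem : ∀ Y : ZMod p, Y ∈ SG p ↔ (∃ w, w ≠ 0 ∧ Y = w ^ 2) ∧
      ∃ v, v ≠ 0 ∧ v ^ 2 = Y ^ 2 - 26 * Y - 343 := by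
    intro Y
    unfold SG
    rw [mem_filter]
    simp
  -- `δ` and `-δ`
  have hiff : ∀ ε : ZMod p, ε ^ 2 = -343 → ε ∈ SG p → -ε ∈ SG p := by
    intro ε hε h
    rw [hmem] at h ⊢
    obtain ⟨⟨w, hw, hw'⟩, v, hv, hv'⟩ := h
    refine ⟨⟨i * w, ?_, ?_⟩, i * (32 * r * w ^ 2) / v, ?_, ?_⟩
    · apply mul_ne_zero _ hw
      rintro rfl
      exact one_ne_zero (α := ZMod p) (by linear_combination hi)
    · linear_combination -hw' - w ^ 2 * hi
    · apply div_ne_zero _ hv
      apply mul_ne_zero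
      · rintro rfl
        exact one_ne_zero (α := ZMod p) (by linear_combination hi)
      · apply mul_ne_zero _ (pow_ne_zero _ hw)
        apply mul_ne_zero _ hr0
        rw [show (32 : ZMod p) = 2 ^ 5 by norm_num]
        exact pow_ne_zero _ n2
    · rw [div_pow, div_eq_iff (pow_ne_zero _ hv), hv']
      rw [mul_pow, mul_pow, mul_pow, hi, hr, ← hw']
      linear_combination (-(ε ^ 2 + 343) : ZMod p) * hε
  have hsplit : SG p = ((SG p).filter fun Y => Y ≠ δ ∧ Y ≠ -δ) ∪
      ((SG p).filter fun Y => Y = δ ∨ Y = -δ) := by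
    ext Y
    simp only [mem_union, mem_filter]
    tauto
  have hdisj : Disjoint ((SG p).filter fun Y => Y ≠ δ ∧ Y ≠ -δ)
      ((SG p).filter fun Y => Y = δ ∨ Y = -δ) := by
    rw [Finset.disjoint_left]
    intro Y h1 h2
    rw [mem_filter] at h1 h2
    tauto
  rw [hsplit, card_union_of_disjoint hdisj]
  apply Even.add
  · -- the involution
    have h1 : ∑ _Y ∈ (SG p).filter (fun Y => Y ≠ δ ∧ Y ≠ -δ), (1 : ZMod 2) = 0 := by
      refine Finset.sum_involution (fun Y _ => -343 / Y) ?_ ?_ ?_ ?_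
      · intro Y _
        decide
      · intro Y hY _ h
        rw [mem_filter, hmem] at hY
        obtain ⟨⟨⟨w, hw, rfl⟩, -⟩, h1, h2⟩ := hY
        have hY0 : w ^ 2 ≠ 0 := pow_ne_zero _ hw
        rw [div_eq_iff hY0] at h
        have h3 : (w ^ 2 - δ) * (w ^ 2 + δ) = 0 := by linear_combination -h - hδ
        rcases mul_eq_zero.1 h3 with h3 | h3
        · exact h1 (by linear_combination h3)
        · exact h2 (by linear_combination h3)
      · intro Y hY
        rw [mem_filter, hmem] at hY ⊢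
        obtain ⟨⟨⟨w, hw, rfl⟩, v, hv, hv'⟩, h1, h2⟩ := hY
        refine ⟨⟨⟨δ / w, div_ne_zero hδ0 hw, ?_⟩, δ * v / w ^ 2,
          div_ne_zero (mul_ne_zero hδ0 hv) (pow_ne_zero _ hw), ?_⟩, ?_, ?_⟩
        · rw [div_pow, hδ]
        · rw [div_pow, mul_pow, hv', hδ]
          field_simp
          ring
        · intro h
          rw [div_eq_iff (pow_ne_zero _ hw)] at h
          have h3 : δ * (w ^ 2 - δ) = 0 := by linear_combination -h - hδ
          rcases mul_eq_zero.1 h3 with h3 | h3
          · exact hδ0 h3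
          · exact h1 (by linear_combination h3)
        · intro h
          rw [div_eq_iff (pow_ne_zero _ hw)] at h
          have h3 : δ * (w ^ 2 + δ) = 0 := by linear_combination h + hδ
          rcases mul_eq_zero.1 h3 with h3 | h3
          · exact hδ0 h3
          · exact h2 (by linear_combination h3)
      · intro Y hY
        rw [mem_filter, hmem] at hY
        obtain ⟨⟨⟨w, hw, rfl⟩, -⟩, -⟩ := hY
        rw [div_div_eq_mul_div, mul_comm, mul_div_assoc, div_self, mul_one]
        intro h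
        apply n343
        linear_combination -h
    rw [sum_const, nsmul_eq_mul, mul_one] at h1
    exact (ZMod.natCast_eq_zero_iff_even).1 h1
  · by_cases hmδ : δ ∈ SG p
    · have hmδ' := hiff δ hδ hmδ
      have : ((SG p).filter fun Y => Y = δ ∨ Y = -δ) = {δ, -δ} := by
        ext Y
        rw [mem_filter, mem_insert, mem_singleton]
        constructor
        · exact fun h => h.2
        · rintro (rfl | rfl)
          · exact ⟨hmδ, Or.inl rfl⟩
          · exact ⟨hmδ', Or.inr rfl⟩
      rw [this, card_pair (self_ne_neg n2 hδ0)]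
      exact even_two
    · have hmδ' : -δ ∉ SG p := by
        intro h
        apply hmδ
        have := hiff (-δ) (by linear_combination hδ) h
        rwa [neg_neg] at this
      have : ((SG p).filter fun Y => Y = δ ∨ Y = -δ) = ∅ := by
        rw [filter_eq_empty_iff]
        rintro Y hY (rfl | rfl)
        · exact hmδ hY
        · exact hmδ' hY
      rw [this, card_empty]
      exact Even.zero

/-- the number of elements of `ZZ` -/
theorem card_ZZ (n2 : (2 : ZMod p) ≠ 0) (n343 : (343 : ZMod p) ≠ 0)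
    {δ : ZMod p} (hδ : δ ^ 2 = -343) (w0 : ZMod p) (h0 : w0 ^ 4 - 26 * w0 ^ 2 - 343 = 0) :
    (ZZ p).card = 4 := by
  classical
  have hδ0 : δ ≠ 0 := by
    rintro rfl
    apply n343
    linear_combination hδ
  have hw0 : w0 ≠ 0 := by
    rintro rfl
    apply n343
    linear_combination -h0
  have hne : w0 ^ 4 ≠ -343 := by
    intro h
    have h1 : (26 : ZMod p) * w0 ^ 2 = -686 := by linear_combination h - h0
    have h2 : (2 : ZMod p) * (13 * w0 ^ 2 + 343) = 0 := by linear_combination h1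
    have h3 := (mul_eq_zero.1 h2).resolve_left n2
    have h4 : (343 : ZMod p) * 2 ^ 9 = 0 := by
      linear_combination (-13 * w0 ^ 2 + 343) * h3 + 169 * h
    rcases mul_eq_zero.1 h4 with h4 | h4
    · exact n343 h4
    · exact pow_ne_zero _ n2 h4
  have heq : ZZ p = ({w0, -w0} : Finset (ZMod p)) ∪ {δ / w0, -(δ / w0)} := by
    ext w
    unfold ZZ
    simp only [mem_filter, mem_univ, true_and, mem_union, mem_insert, mem_singleton]
    constructor
    · intro h
      have h1 : (w ^ 2 - w0 ^ 2) * (w ^ 2 - (δ / w0) ^ 2) = 0 := by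
        have e : (δ / w0) ^ 2 = 26 - w0 ^ 2 := by
          rw [div_pow, div_eq_iff (pow_ne_zero _ hw0)]
          linear_combination hδ + h0
        rw [e]
        linear_combination h - h0
      rcases mul_eq_zero.1 h1 with h1 | h1
      · left
        have h2 : (w - w0) * (w + w0) = 0 := by linear_combination h1
        rcases mul_eq_zero.1 h2 with h2 | h2
        · left; linear_combination h2
        · right; linear_combination h2
      · right
        have h2 : (w - δ / w0) * (w + δ / w0) = 0 := by linear_combination h1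
        rcases mul_eq_zero.1 h2 with h2 | h2
        · left; linear_combination h2
        · right; linear_combination h2
    · have e : (δ / w0) ^ 2 = 26 - w0 ^ 2 := by
        rw [div_pow, div_eq_iff (pow_ne_zero _ hw0)]
        linear_combination hδ + h0
      have e4 : (δ / w0) ^ 4 = (26 - w0 ^ 2) ^ 2 := by rw [← e]; ring
      rintro ((rfl | rfl) | (rfl | rfl))
      · exact h0
      · linear_combination h0
      · rw [e, e4]
        linear_combination h0
      · have e1 : (-(δ / w0)) ^ 4 = (δ / w0) ^ 4 := by ring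
        have e2 : (-(δ / w0)) ^ 2 = (δ / w0) ^ 2 := by ring
        rw [e1, e2, e, e4]
        linear_combination h0
  have hd : Disjoint ({w0, -w0} : Finset (ZMod p)) {δ / w0, -(δ / w0)} := by
    rw [Finset.disjoint_left]
    intro w h1 h2
    rw [mem_insert, mem_singleton] at h1 h2
    have e1 : w ^ 2 = w0 ^ 2 := by rcases h1 with rfl | rfl <;> ring
    have e2 : w ^ 2 = (δ / w0) ^ 2 := by rcases h2 with rfl | rfl <;> ring
    apply hne
    rw [e1, div_pow, eq_div_iff (pow_ne_zero _ hw0)] at e2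
    linear_combination e2 + hδ
  rw [heq, card_union_of_disjoint hd, card_pair (self_ne_neg n2 hw0),
    card_pair (self_ne_neg n2 (div_ne_zero hδ0 hw0))]

/-- square roots and roots of the quartic -/
theorem rt_iff (n2 : (2 : ZMod p) ≠ 0) (n343 : (343 : ZMod p) ≠ 0) {i r δ : ZMod p}
    (hi : i ^ 2 = -1) (hr : r ^ 2 = 2) (hδ : δ ^ 2 = -343) :
    Rt p 1 ↔ ∀ w : ZMod p, w ^ 4 - 26 * w ^ 2 - 343 ≠ 0 := by
  have n4 : (4 : ZMod p) ≠ 0 := by
    rw [show (4 : ZMod p) = 2 * 2 by norm_num]; exact mul_ne_zero n2 n2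
  constructor
  · intro h w hw
    have hw0 : w ≠ 0 := by
      rintro rfl
      apply n343
      linear_combination -hw
    obtain ⟨s, hs⟩ : ∃ s, s = (i * w + i * δ / w) / 2 := ⟨_, rfl⟩
    have h1 : 4 * s ^ 2 = -26 - 2 * δ := by
      have h2 : 2 * s * w = i * w ^ 2 + i * δ := by rw [hs]; field_simp
      have h3 : w ^ 2 * (4 * s ^ 2) = w ^ 2 * (-26 - 2 * δ) := by
        have h4 : (2 * s * w) ^ 2 = (i * w ^ 2 + i * δ) ^ 2 := by rw [h2]
        linear_combination h4 + (w ^ 2 + δ) ^ 2 * hi - hw - hδ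
      exact mul_left_cancel₀ (pow_ne_zero _ hw0) h3
    refine h (s ^ 2) ?_ ⟨s, by ring⟩
    push_cast
    apply mul_left_cancel₀ n4
    have h5 : 2 * s ^ 2 + 13 = -δ := by
      apply mul_left_cancel₀ n2
      linear_combination h1
    linear_combination (2 * s ^ 2 + 13 - δ) * h5 + hδ
  · rintro h x hx ⟨s, rfl⟩
    push_cast at hx
    have hs0 : s ≠ 0 := by
      rintro rfl
      have h1 : (2 : ZMod p) ^ 7 = 0 := by linear_combination hx
      exact pow_ne_zero _ n2 h1
    obtain ⟨t, ht⟩ : ∃ t, t = 8 * r / s := ⟨_, rfl⟩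
    have hst : s * t = 8 * r := by rw [ht]; field_simp
    have hsum : s ^ 2 + t ^ 2 = -13 := by
      have h1 : s ^ 2 * (s ^ 2 + t ^ 2) = s ^ 2 * (-13) := by
        have h2 : (s * t) ^ 2 = 128 := by rw [hst]; linear_combination 64 * hr
        linear_combination h2 + hx
      exact mul_left_cancel₀ (pow_ne_zero _ hs0) h1
    apply h (i * (s + t))
    have h3 : (i * (s + t)) ^ 2 = 13 - 16 * r := by
      linear_combination (s + t) ^ 2 * hi - hsum - 2 * hst
    have h4 : (i * (s + t)) ^ 4 = (13 - 16 * r) ^ 2 := by rw [← h3]; ring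
    rw [h3, h4]
    linear_combination 256 * hr

end

theorem t_RTE : S_RTE := by
  intro p hp h8 h7
  have : Fact p.Prime := ⟨hp⟩
  have hcast : ∀ q : ℕ, q.Prime → p ≠ q → ((q : ℕ) : ZMod p) ≠ 0 := by
    intro q hq hne h
    rw [ZMod.natCast_eq_zero_iff] at h
    exact hne ((Nat.prime_dvd_prime_iff_eq hp hq).1 h)
  have n2 : (2 : ZMod p) ≠ 0 := by
    have := hcast 2 Nat.prime_two (by omega)
    exact_mod_cast this
  have n3 : (3 : ZMod p) ≠ 0 := by
    have := hcast 3 Nat.prime_three (by omega)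
    exact_mod_cast this
  have n7 : (7 : ZMod p) ≠ 0 := by
    have := hcast 7 (by norm_num) (by omega)
    exact_mod_cast this
  have n343 : (343 : ZMod p) ≠ 0 := by
    rw [show (343 : ZMod p) = 7 ^ 3 by norm_num]
    exact pow_ne_zero _ n7
  obtain ⟨i, hi⟩ : ∃ i : ZMod p, i ^ 2 = -1 := by
    obtain ⟨i, hi⟩ := (ZMod.exists_sq_eq_neg_one_iff (p := p)).2 (by omega)
    exact ⟨i, by rw [hi]; ring⟩
  obtain ⟨r, hr⟩ : ∃ r : ZMod p, r ^ 2 = 2 := by
    obtain ⟨r, hr⟩ := (ZMod.exists_sq_eq_two_iff (p := p) (by omega)).2 (Or.inl h8)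
    exact ⟨r, by rw [hr]; ring⟩
  obtain ⟨u, hu⟩ : ∃ u : ZMod p, u ^ 2 = 7 := by
    have : Fact (Nat.Prime 7) := ⟨by norm_num⟩
    have h1 : IsSquare ((p : ℕ) : ZMod 7) := by
      have h2 : ((p : ℕ) : ZMod 7) = ((p % 7 : ℕ) : ZMod 7) := by
        rw [ZMod.natCast_mod]
      rw [h2]
      rcases h7 with h | h | h <;> rw [h]
      · exact ⟨1, rfl⟩
      · exact ⟨3, rfl⟩
      · exact ⟨2, rfl⟩
    have h3 := (ZMod.exists_sq_eq_prime_iff_of_mod_four_eq_one (p := p) (q := 7) (by omega)
      (by norm_num)).2 h1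
    obtain ⟨u, hu⟩ := h3
    exact ⟨u, by push_cast at hu; rw [hu]; ring⟩
  have hδ : (i * 7 * u) ^ 2 = (-343 : ZMod p) := by
    linear_combination 49 * u ^ 2 * hi - 49 * hu
  have h1 := card_model (p := p) n2 n3
  have h2 := card_QQ n2 n343 hδ
  obtain ⟨k, hk⟩ := even_SG n2 n343 hi hr hδ
  rw [rt_iff n2 n343 hi hr hδ]
  constructor
  · intro h
    have h3 : (ZZ p).card = 0 := by
      rw [card_eq_zero]
      unfold ZZ
      rw [filter_eq_empty_iff]
      exact fun w _ => h w
    omega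
  · intro h w hw
    apply h
    have h3 := card_ZZ n2 n343 hδ w hw
    omega

theorem t_EX : S_EX := by
  refine ⟨⟨by norm_num, by norm_num, Or.inr (Or.inr (by norm_num))⟩, ?_⟩
  unfold Rt
  decide +kernel

end Pool.Agent.Y655.Z7
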